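import Mathlib

namespace Pool.Agent.Work.MP_15e198_al

/-- `N(r, n)`: the largest size of a subset of the ball of radius `n` of the free group of rank `r`
that freely generates a subgroup. -/
noncomputable def maxFree (r n : ℕ) : ℕ :=
  sSup {k : ℕ | ∃ X : Finset (FreeGroup (Fin r)), X.card = k ∧ (∀ g ∈ X, FreeGroup.norm g ≤ n) ∧
    Function.Injective (FreeGroup.lift fun x : X => (x : FreeGroup (Fin r)))}

end Pool.Agent.Work.MP_15e198_al
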