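import Mathlib
import Pool.Agent.Work.MP_15e198_al.Upper
import Pool.Agent.Work.MP_15e198_al.Hedge.Defs

-- merged part: Pool.Agent.Work.MP_15e198_al.Hedge.Nec
section
/-! The weighted inequality for a free family. -/

namespace Pool.Agent.Work.MP_15e198_al

open FreeGroup

/-- The mass of a cone over a reduced word of length `k + 1`. -/
noncomputable def mu (q k : ℕ) : ℝ := 1 / ((q + 1) * (q : ℝ) ^ k)

/-- The weight of a generator of length `n`. -/
noncomputable def wt (q n : ℕ) : ℝ := mu q ((n - 1) / 2) + mu q (n / 2)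

theorem mu_pos {q : ℕ} (hq : 1 ≤ q) (k : ℕ) : 0 < mu q k := by
  have : (0 : ℝ) < q := by exact_mod_cast hq
  unfold mu
  positivity

theorem mu_succ {q : ℕ} (hq : 1 ≤ q) (k : ℕ) : q * mu q (k + 1) = mu q k := by
  have : (0 : ℝ) < q := by exact_mod_cast hq
  unfold mu
  rw [pow_succ]
  field_simp

theorem mu_anti {q : ℕ} (hq : 1 ≤ q) : Antitone (mu q) := antitone_nat_of_succ_le fun k => by
  rw [← mu_succ hq k]
  exact le_mul_of_one_le_left (mu_pos hq _).le (by exact_mod_cast hq)

theorem wt_anti {q : ℕ} (hq : 1 ≤ q) : Antitone (wt q) := fun _ _ h =>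
  add_le_add (mu_anti hq (by omega)) (mu_anti hq (by omega))

theorem wt_pos {q : ℕ} (hq : 1 ≤ q) (n : ℕ) : 0 < wt q n := add_pos (mu_pos hq _) (mu_pos hq _)

theorem wt_add (q : ℕ) {a b : ℕ} (h1 : a ≤ b + 1) (h2 : b ≤ a + 1) :
    wt q (a + b + 1) = mu q a + mu q b := by
  unfold wt
  rcases le_total a b with h | h
  · rw [show (a + b + 1 - 1) / 2 = a by omega, show (a + b + 1) / 2 = b by omega]
  · rw [show (a + b + 1 - 1) / 2 = b by omega, show (a + b + 1) / 2 = a by omega, add_comm]

theorem layer_eq (W : ℕ → ℝ) {m B : ℕ} (h : m ≤ B) :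
    W m = W B + ∑ n ∈ Finset.range B, (W n - W (n + 1)) * if m ≤ n then 1 else 0 := by
  induction B, h using Nat.le_induction with
  | base =>
    rw [Finset.sum_eq_zero fun n hn => by
      rw [if_neg (not_le.2 (Finset.mem_range.1 hn)), mul_zero], add_zero]
  | succ B h ih =>
    rw [Finset.sum_range_succ, if_pos h]
    linarith

theorem layer_sum {ι : Type*} (W : ℕ → ℝ) (s : Finset ι) (f : ι → ℕ) {B : ℕ} (h : ∀ i ∈ s, f i ≤ B) :
    ∑ i ∈ s, W (f i) = W B * s.card +
      ∑ n ∈ Finset.range B, (W n - W (n + 1)) * (s.filter fun i => f i ≤ n).card := by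
  rw [Finset.sum_congr rfl fun i hi => layer_eq W (h i hi), Finset.sum_add_distrib, Finset.sum_const,
    nsmul_eq_mul, mul_comm, Finset.sum_comm]
  simp only [← Finset.mul_sum, Finset.sum_boole]

section Count

variable {Q L : Type*} [Fintype L] [Nonempty L] {step : Q → L → Q} {iv : L → L} {d : Q → ℕ} {o : Q}
  {triv : Q → L → Prop}

theorem Geo.wkraft (h : Geo step iv d o triv) {q : ℕ} (hb : Fintype.card L = q + 1) (hq : 1 ≤ q)
    (k : ℕ) : ∑ j ∈ Finset.range (k + 1), ((h.nt j).card : ℝ) * mu q j +
      (h.lev (k + 1)).card * mu q k ≤ 1 := by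
  induction k with
  | zero =>
    have h1 := h.count 0
    have h2 := h.lev_zero
    rw [hb, if_pos rfl] at h1
    have h3 : (h.nt 0).card + (h.lev (0 + 1)).card ≤ q + 1 := by nlinarith
    have h4 : ((h.nt 0).card : ℝ) + (h.lev (0 + 1)).card ≤ q + 1 := by exact_mod_cast h3
    rw [Finset.sum_range_one, ← add_mul, mu, pow_zero, mul_one, mul_one_div,
      div_le_one (by positivity)]
    exact h4
  | succ k ih =>
    have h1 := h.count (k + 1)
    rw [hb, if_neg (by omega)] at h1
    have h3 : (h.nt (k + 1)).card + (h.lev (k + 1 + 1)).card ≤ (h.lev (k + 1)).card * q := by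
      nlinarith
    have h4 : ((h.nt (k + 1)).card : ℝ) + (h.lev (k + 1 + 1)).card ≤ (h.lev (k + 1)).card * q := by
      exact_mod_cast h3
    have h5 := mul_le_mul_of_nonneg_right h4 (mu_pos hq (k + 1)).le
    rw [mul_assoc, mu_succ hq] at h5
    rw [Finset.sum_range_succ]
    linarith

theorem Geo.wshort (h : Geo step iv d o triv) {q : ℕ} (hb : Fintype.card L = q + 1) (hq : 1 ≤ q)
    (B : ℕ) : ∑ e ∈ h.short B, wt q (d e.1 + d (step e.1 e.2) + 1) ≤ 2 := by
  classical
  have h1 : ∑ e ∈ h.short B, mu q (d (step e.1 e.2)) = ∑ e ∈ h.short B, mu q (d e.1) :=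
    Finset.sum_nbij' (fun e => (step e.1 e.2, iv e.2)) (fun e => (step e.1 e.2, iv e.2))
      (fun _ he => h.rev_mem_short he) (fun _ he => h.rev_mem_short he)
      (fun e _ => by simp only [h.step_iv, h.iv_iv]) (fun e _ => by simp only [h.step_iv, h.iv_iv])
      fun _ _ => rfl
  have h2 : ∑ e ∈ h.short B, mu q (d e.1) ≤
      ∑ j ∈ Finset.range (B + 1), ((h.nt j).card : ℝ) * mu q j := by
    rw [← Finset.sum_fiberwise_of_maps_to (g := fun e => d e.1) (t := Finset.range (B + 1))
      fun e he => Finset.mem_range.2 (by have := (h.mem_short.1 he).2; omega)]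
    refine Finset.sum_le_sum fun j _ => ?_
    rw [Finset.sum_congr rfl (g := fun _ => mu q j) fun e he => by rw [(Finset.mem_filter.1 he).2],
      Finset.sum_const, nsmul_eq_mul]
    refine mul_le_mul_of_nonneg_right (Nat.cast_le.2 (Finset.card_le_card fun e he => ?_))
      (mu_pos hq j).le
    rw [Finset.mem_filter] at he
    exact h.mem_nt.2 ⟨he.2, (h.mem_short.1 he.1).1⟩
  have h3 := h.wkraft hb hq B
  have h4 := mul_nonneg (Nat.cast_nonneg (α := ℝ) (h.lev (B + 1)).card) (mu_pos hq B).le
  rw [Finset.sum_congr rfl fun e _ => wt_add q (h.le' e.1 e.2) (h.le e.1 e.2),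
    Finset.sum_add_distrib, h1]
  linarith

end Count

theorem card_le_of_closure' {G ι : Type*} [Group G] {g : ι → G}
    (hg : Function.Injective (FreeGroup.lift g)) (s : Finset ι) (S : Finset G)
    (hS : ∀ x ∈ S, x ∈ (FreeGroup.lift g).range)
    (hgen : ∀ i ∈ s, g i ∈ Subgroup.closure (S : Set G)) : s.card ≤ S.card := by
  classical
  choose σ hσ using fun x : S => hS x.1 x.2
  let ext : (s → Multiplicative (ZMod 2)) → ι → Multiplicative (ZMod 2) :=
    fun f i => if h : i ∈ s then f ⟨i, h⟩ else 1
  let θ : (s → Multiplicative (ZMod 2)) → (S → Multiplicative (ZMod 2)) :=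
    fun f x => FreeGroup.lift (ext f) (σ x)
  have hθ : Function.Injective θ := by
    intro f f' hff'
    have key : ∀ x ∈ Subgroup.closure (S : Set G), ∃ w, FreeGroup.lift g w = x ∧
        FreeGroup.lift (ext f) w = FreeGroup.lift (ext f') w := by
      intro x hx
      induction hx using Subgroup.closure_induction with
      | mem x hs => exact ⟨σ ⟨x, hs⟩, hσ _, congrFun hff' ⟨x, hs⟩⟩
      | one => exact ⟨1, by simp, by simp⟩
      | mul a b _ _ ha hb =>
        obtain ⟨w, hw, hw'⟩ := ha
        obtain ⟨v, hv, hv'⟩ := hb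
        exact ⟨w * v, by simp [hw, hv], by simp [hw', hv']⟩
      | inv a _ ha =>
        obtain ⟨w, hw, hw'⟩ := ha
        exact ⟨w⁻¹, by simp [hw], by simp [hw']⟩
    funext x
    obtain ⟨w, hw, hw'⟩ := key _ (hgen x x.2)
    have : w = of x.1 := hg (by rw [hw, lift_apply_of])
    simpa [this, ext] using hw'
  have h := Fintype.card_le_of_injective θ hθ
  simp only [Fintype.card_fun, Fintype.card_multiplicative, ZMod.card, Fintype.card_coe] at h
  exact (Nat.pow_le_pow_iff_right (by norm_num)).mp h

theorem upper_fam {α ι : Type} [Fintype α] [DecidableEq α] [Nonempty α] {g : ι → FreeGroup α}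
    (hg : Function.Injective (FreeGroup.lift g)) :
    ∃ (Q : Type) (step : Q → α × Bool → Q) (d : Q → ℕ) (o : Q) (triv : Q → α × Bool → Prop)
      (h : Geo step linv d o triv), ∀ (n : ℕ) (X : Finset ι), (∀ i ∈ X, norm (g i) ≤ n) →
        2 * X.card ≤ (h.short n).card := by
  classical
  set H := (FreeGroup.lift g).range with hH
  obtain ⟨t, ht1, ht2, ht3⟩ := exists_transversal (H := H)
  let s : (FreeGroup α ⧸ H) × (α × Bool) → FreeGroup α :=
    fun e => (t (stp H e.1 e.2))⁻¹ * (mk [e.2] * t e.1)
  have hsH : ∀ e, s e ∈ H := by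
    intro e
    rw [← QuotientGroup.eq, ht1, ← smul_eq_mul, ← MulAction.Quotient.smul_mk, ht1]
    rfl
  have hsrev : ∀ q y, s (stp H q y, linv y) = (s (q, y))⁻¹ := by
    intro q y
    simp only [s, stp_linv, mk_linv]
    group
  have hgeo : Geo (stp H) linv (dep H) ((1 : FreeGroup α) : FreeGroup α ⧸ H)
      (fun q y => s (q, y) = 1) :=
    { step_iv := stp_linv
      iv_iv := linv_linv
      zero := dep_zero
      le := dep_stp_le
      down := by
        intro q hq
        obtain ⟨y, hy1, hy2⟩ := ht3 q hq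
        exact ⟨y, hy1, by simp only [s, hy2, inv_mul_cancel]⟩
      rev := by
        intro q y h
        rw [hsrev, h, inv_one] }
  refine ⟨_, _, _, _, _, hgeo, fun n X hn => ?_⟩
  let Dp := (hgeo.short n).filter fun e => e.2.2 = true
  let Dm := (hgeo.short n).filter fun e => ¬ e.2.2 = true
  have hsum : Dp.card + Dm.card = (hgeo.short n).card := Finset.card_filter_add_card_filter_not _
  have hpm : Dp.card ≤ Dm.card := by
    refine Finset.card_le_card_of_injOn (fun e => (stp H e.1 e.2, linv e.2)) ?_ ?_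
    · intro e he
      have h4 := Finset.mem_filter.mp (Finset.mem_coe.mp he)
      refine Finset.mem_coe.mpr (Finset.mem_filter.mpr ⟨hgeo.rev_mem_short h4.1, ?_⟩)
      simp [linv, h4.2]
    · rintro ⟨q, y⟩ _ ⟨q', y'⟩ _ hqq'
      simp only [Prod.mk.injEq] at hqq' ⊢
      have hy : y = y' := by rw [← linv_linv y, hqq'.2, linv_linv]
      refine ⟨?_, hy⟩
      rw [← stp_linv q y, hqq'.1, hqq'.2, stp_linv]
  let S : Finset (FreeGroup α) := Dp.image s
  have hS : S.card ≤ Dp.card := Finset.card_image_le
  have hedge : ∀ q y, dep H q + dep H (stp H q y) + 1 ≤ n →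
      s (q, y) ∈ Subgroup.closure (S : Set (FreeGroup α)) := by
    intro q y hqy
    by_cases h1 : s (q, y) = 1
    · rw [h1]; exact one_mem _
    · have h2 : (q, y) ∈ hgeo.short n := hgeo.mem_short.mpr ⟨h1, hqy⟩
      by_cases h3 : y.2 = true
      · exact Subgroup.subset_closure (Finset.mem_coe.mpr
          (Finset.mem_image_of_mem s (Finset.mem_filter.mpr ⟨h2, h3⟩)))
      · have h4 : s (stp H q y, linv y) ∈ Subgroup.closure (S : Set (FreeGroup α)) :=
          Subgroup.subset_closure (Finset.mem_coe.mpr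
            (Finset.mem_image_of_mem s (Finset.mem_filter.mpr ⟨hgeo.rev_mem_short h2, by
              simpa [linv] using h3⟩)))
        rw [hsrev] at h4
        exact (Subgroup.inv_mem_iff _).mp h4
  have hpath : ∀ (w : List (α × Bool)) (j : ℕ),
      dep H ((mk w : FreeGroup α) : FreeGroup α ⧸ H) ≤ j → j + w.length ≤ n →
      (t ((mk w : FreeGroup α) : FreeGroup α ⧸ H))⁻¹ * mk w ∈
        Subgroup.closure (S : Set (FreeGroup α)) := by
    intro w
    induction w with
    | nil =>
      intro j _ _
      rw [← one_eq_mk, ht2]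
      simp
    | cons y w ih =>
      intro j h1 h2
      simp only [List.length_cons] at h2
      rw [← stp_mk] at h1 ⊢
      have h3 := hgeo.le' ((mk w : FreeGroup α) : FreeGroup α ⧸ H) y
      have h4 := ih (j + 1) (by omega) (by omega)
      have h5 := dep_le (H := H) w
      have h6 := hedge ((mk w : FreeGroup α) : FreeGroup α ⧸ H) y (by omega)
      have h7 := mul_mem h6 h4
      have h8 : (mk (y :: w) : FreeGroup α) = mk [y] * mk w := by rw [mul_mk]; rfl
      simp only [s] at h7
      rw [mul_assoc, mul_assoc, mul_inv_cancel_left] at h7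
      rw [h8]
      exact h7
  have hcard := card_le_of_closure' hg X S (by
      intro g hg
      obtain ⟨e, -, rfl⟩ := Finset.mem_image.mp hg
      exact hsH e) (by
      intro x hx
      have hxH : g x ∈ H := ⟨of x, by simp⟩
      have h1 : ((g x : FreeGroup α) : FreeGroup α ⧸ H) = ((1 : FreeGroup α) : FreeGroup α ⧸ H) := by
        rw [QuotientGroup.eq]
        simpa using hxH
      have h2 : dep H ((1 : FreeGroup α) : FreeGroup α ⧸ H) = 0 := by
        have := dep_le (H := H) []
        rw [← one_eq_mk] at this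
        simpa using this
      have h3 := hpath (g x).toWord 0 (by rw [mk_toWord, h1, h2]) (by
        have := hn x hx
        simpa [FreeGroup.norm] using this)
      rw [mk_toWord, h1, ht2] at h3
      simpa using h3)
  omega

theorem necessity {α ι : Type} [Fintype α] [DecidableEq α] [Nonempty α] {g : ι → FreeGroup α}
    (hg : Function.Injective (FreeGroup.lift g)) {q : ℕ} (hq : q + 1 = 2 * Fintype.card α)
    (X : Finset ι) : ∑ i ∈ X, wt q (norm (g i)) ≤ 1 := by
  classical
  obtain ⟨Q, step, d, o, triv, h, hle⟩ := upper_fam hg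
  have hpos : 0 < Fintype.card α := Fintype.card_pos
  have hq1 : 1 ≤ q := by omega
  obtain ⟨B, hB⟩ : ∃ B, ∀ i ∈ X, norm (g i) ≤ B :=
    ⟨X.sup fun i => norm (g i), fun i hi => Finset.le_sup (f := fun i => norm (g i)) hi⟩
  have h1 := h.wshort (q := q) (by simp; omega) hq1 B
  rw [layer_sum (wt q) _ (fun e => d e.1 + d (step e.1 e.2) + 1) fun e he => (h.mem_short.1 he).2] at h1
  rw [layer_sum (wt q) X (fun i => norm (g i)) hB]
  have h2 : (2 : ℝ) * X.card ≤ (h.short B).card := by exact_mod_cast hle B X hB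
  have h3 := mul_le_mul_of_nonneg_left h2 (wt_pos hq1 B).le
  have h4 : ∑ n ∈ Finset.range B, (wt q n - wt q (n + 1)) *
      (2 * ((X.filter fun i => norm (g i) ≤ n).card : ℝ)) ≤
      ∑ n ∈ Finset.range B, (wt q n - wt q (n + 1)) *
        ((h.short B).filter fun e => d e.1 + d (step e.1 e.2) + 1 ≤ n).card := by
    refine Finset.sum_le_sum fun n hn => mul_le_mul_of_nonneg_left ?_
      (sub_nonneg.2 (wt_anti hq1 (Nat.le_succ n)))
    have := (hle n (X.filter fun i => norm (g i) ≤ n) fun i hi => (Finset.mem_filter.1 hi).2).trans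
      (Finset.card_le_card (t := (h.short B).filter fun e => d e.1 + d (step e.1 e.2) + 1 ≤ n)
        fun e he => by
          have := Finset.mem_range.1 hn
          rw [h.mem_short] at he
          exact Finset.mem_filter.2 ⟨h.mem_short.2 ⟨he.1, by omega⟩, he.2⟩)
    exact_mod_cast this
  simp only [mul_left_comm _ (2 : ℝ), ← Finset.mul_sum] at h4
  linarith

end Pool.Agent.Work.MP_15e198_al
end

-- merged part: Pool.Agent.Work.MP_15e198_al.Hedge.Suf
section
/-! Every length profile allowed by the inequality is realised. -/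

namespace Pool.Agent.Work.MP_15e198_al

open FreeGroup

variable {α ι : Type} [DecidableEq α] [DecidableEq ι]

/-- A nonempty word, given by its last letter and the rest. -/
abbrev Wd (α : Type) : Type := List (α × Bool) × (α × Bool)

/-- The word itself. -/
def wd (p : Wd α) : List (α × Bool) := p.1 ++ [p.2]

/-- The type of a word. -/
def ty (p : Wd α) : ℕ × (α × Bool) := (p.1.length, p.2)

/-- Reduced words none of which is an initial segment of another. -/
def PF (A : Finset (Wd α)) : Prop :=
  (∀ p ∈ A, IsReduced (wd p)) ∧ ∀ p ∈ A, ∀ p' ∈ A, wd p <+: wd p' → p = p'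

/-- The lengths `ℓ i`, `i ∈ s`, are realised by pairs of words in the cones over `A`. -/
def Rea (ℓ : ι → ℕ) (A : Finset (Wd α)) (s : Finset ι) : Prop :=
  ∃ P : ι → Bool → Wd α, (∀ i ∈ s, (P i false).2 = linv (P i true).2 ∧
    (P i true).1.length + (P i false).1.length + 1 = ℓ i ∧
    ∀ b, IsReduced (wd (P i b)) ∧ ∃ p ∈ A, wd p <+: wd (P i b)) ∧
    ∀ i ∈ s, ∀ j ∈ s, ∀ b c, wd (P i b) <+: wd (P j c) → i = j ∧ b = c

/-- The lengths are realised from every set of words with the types `a`. -/
def Ok (ℓ : ι → ℕ) (a : Multiset (ℕ × (α × Bool))) (s : Finset ι) : Prop :=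
  ∀ A : Finset (Wd α), PF A → A.val.map ty = a → Rea ℓ A s

variable {ℓ : ι → ℕ}

omit [DecidableEq α] in
theorem PF.cmp {A : Finset (Wd α)} (h : PF A) {p p' : Wd α} (hp : p ∈ A) (hp' : p' ∈ A)
    {w : List (α × Bool)} (h1 : wd p <+: w) (h2 : wd p' <+: w) : p = p' :=
  (List.prefix_or_prefix_of_prefix h1 h2).elim (h.2 _ hp _ hp') fun e => (h.2 _ hp' _ hp e).symm

omit [DecidableEq α] in
theorem PF.mono {A B : Finset (Wd α)} (h : PF A) (hB : B ⊆ A) : PF B :=
  ⟨fun p hp => h.1 p (hB hp), fun p hp p' hp' => h.2 p (hB hp) p' (hB hp')⟩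

theorem pick {A : Finset (Wd α)} {t : ℕ × (α × Bool)} {a : Multiset (ℕ × (α × Bool))}
    (h : A.val.map ty = t ::ₘ a) : ∃ p ∈ A, ty p = t ∧ (A.erase p).val.map ty = a :=
  (Multiset.map_eq_cons ty A.val a t).2 h

theorem Ok.use {a : Multiset (ℕ × (α × Bool))} {s : Finset ι} (h : Ok ℓ a s) {i : ι} {k k' : ℕ}
    (hi : ℓ i = k + k' + 1) (z : α × Bool) :
    Ok ℓ ((k, z) ::ₘ (k', linv z) ::ₘ a) (insert i s) := by
  intro A hA ha
  obtain ⟨p, hp, tp, h1⟩ := pick ha
  obtain ⟨p', hp', tp', h2⟩ := pick h1
  obtain ⟨P, hP, hI⟩ := h _ (hA.mono ((Finset.erase_subset _ _).trans (Finset.erase_subset _ _))) h2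
  rw [Finset.mem_erase] at hp'
  obtain ⟨π, π1, π0⟩ : ∃ π : Bool → Wd α, π true = p ∧ π false = p' := ⟨fun b => cond b p p', rfl, rfl⟩
  have m1 : ∀ b, π b ∈ A ∧ π b ∉ (A.erase p).erase p' := fun b => by
    cases b
    · rw [π0]
      exact ⟨hp'.2, Finset.notMem_erase _ _⟩
    · rw [π1]
      exact ⟨hp, fun e => Finset.notMem_erase _ _ (Finset.mem_of_mem_erase e)⟩
  have m2 : ∀ j ∈ s, ∀ b c w, wd (π b) <+: w → wd (P j c) <+: w → False := fun j hj b c w e1 e2 => by
    obtain ⟨r, hr, e⟩ := ((hP j hj).2.2 c).2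
    exact (m1 b).2 (hA.cmp (m1 b).1 (Finset.mem_of_mem_erase (Finset.mem_of_mem_erase hr)) e1
      (e.trans e2) ▸ hr)
  simp only [ty, Prod.mk.injEq] at tp tp'
  refine ⟨Function.update P i π, fun j hj => ?_, fun j hj j' hj' b c e => ?_⟩
  · rcases eq_or_ne j i with rfl | n
    · rw [Function.update_self, π0, π1, tp.1, tp.2, tp'.1, tp'.2]
      exact ⟨rfl, hi.symm, fun b => ⟨hA.1 _ (m1 b).1, _, (m1 b).1, List.prefix_rfl⟩⟩
    · rw [Function.update_of_ne n]
      obtain ⟨x, y, u⟩ := hP j ((Finset.mem_insert.1 hj).resolve_left n)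
      refine ⟨x, y, fun b => ⟨(u b).1, ?_⟩⟩
      obtain ⟨r, hr, e⟩ := (u b).2
      exact ⟨r, Finset.mem_of_mem_erase (Finset.mem_of_mem_erase hr), e⟩
  · rcases eq_or_ne j i with rfl | n <;> rcases eq_or_ne j' j with rfl | n'
    · rw [Function.update_self] at e
      have := hA.2 _ (m1 b).1 _ (m1 c).1 e
      refine ⟨rfl, ?_⟩
      cases b <;> cases c
      · rfl
      · exact absurd (π0.symm.trans (this.trans π1)) hp'.1
      · exact absurd (π0.symm.trans (this.symm.trans π1)) hp'.1
      · rfl
    · rw [Function.update_self, Function.update_of_ne n'] at e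
      exact (m2 j' ((Finset.mem_insert.1 hj').resolve_left n') b c _ e List.prefix_rfl).elim
    · rw [Function.update_of_ne n] at e
      exact hI _ ((Finset.mem_insert.1 hj).resolve_left n) _ ((Finset.mem_insert.1 hj).resolve_left n) b c e
    · rw [Function.update_of_ne n] at e
      rcases eq_or_ne j' i with rfl | n''
      · rw [Function.update_self] at e
        exact (m2 j ((Finset.mem_insert.1 hj).resolve_left n) c b _ List.prefix_rfl e).elim
      · rw [Function.update_of_ne n''] at e
        exact hI _ ((Finset.mem_insert.1 hj).resolve_left n) _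
          ((Finset.mem_insert.1 hj').resolve_left n'') b c e

theorem Ok.useMany {a : Multiset (ℕ × (α × Bool))} {s : Finset ι} (h : Ok ℓ a s) {k k' : ℕ}
    (S : Multiset (α × Bool)) : ∀ t : Finset ι, t.card = S.card → (∀ i ∈ t, ℓ i = k + k' + 1) →
      Ok ℓ (S.map (fun z => (k, z)) + S.map (fun z => (k', linv z)) + a) (t ∪ s) := by
  induction S using Multiset.induction_on with
  | empty =>
    intro t ht _
    rw [Finset.card_eq_zero.1 ht]
    simpa using h
  | cons z S ih =>
    intro t ht hl
    rw [Multiset.card_cons] at ht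
    obtain ⟨i, t', hi, rfl, ht'⟩ := Finset.card_eq_succ.1 ht
    have := (ih t' ht' fun j hj => hl j (Finset.mem_insert_of_mem hj)).use
      (hl i (Finset.mem_insert_self _ _)) z
    rw [Finset.insert_union, Multiset.map_cons, Multiset.map_cons, Multiset.cons_add,
      Multiset.cons_add, Multiset.add_cons, Multiset.cons_add]
    exact this

omit [DecidableEq α] in
theorem red_two {x y : α × Bool} (h : y ≠ linv x) : IsReduced [x, y] := by
  rw [isReduced_cons_cons]
  refine ⟨fun h1 => ?_, IsReduced.singleton⟩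
  by_contra h2
  rcases y with ⟨y1, y2⟩
  rcases x with ⟨x1, x2⟩
  simp only [linv, ne_eq, Prod.mk.injEq] at h h1 h2
  cases y2 <;> cases x2 <;> simp_all

variable [Fintype α]

omit [DecidableEq ι] in
theorem Ok.split {a : Multiset (ℕ × (α × Bool))} {s : Finset ι} {k : ℕ} {x : α × Bool}
    (h : Ok ℓ ((Finset.univ.erase (linv x)).val.map (fun y => (k + 1, y)) + a) s) :
    Ok ℓ ((k, x) ::ₘ a) s := by
  intro A hA ha
  obtain ⟨p, hp, tp, h1⟩ := pick ha
  simp only [ty, Prod.mk.injEq] at tp
  let C : Finset (Wd α) := (Finset.univ.erase (linv x)).map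
    ⟨fun y => (wd p, y), fun _ _ e => (Prod.ext_iff.1 e).2⟩
  have hC : ∀ r ∈ C, r.1 = wd p ∧ r.2 ≠ linv x := fun r hr => by
    obtain ⟨y, hy, rfl⟩ := Finset.mem_map.1 hr
    exact ⟨rfl, (Finset.mem_erase.1 hy).1⟩
  have hC2 : ∀ r ∈ C, wd p <+: wd r := fun r hr => (hC r hr).1 ▸ List.prefix_append _ _
  have hno : ∀ r ∈ C, ∀ r' ∈ A.erase p, ∀ w, wd r <+: w → wd r' <+: w → False :=
    fun r hr r' hr' w e1 e2 => (Finset.mem_erase.1 hr').1
      (hA.cmp (Finset.mem_of_mem_erase hr') hp e2 ((hC2 r hr).trans e1))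
  have hd : Disjoint C (A.erase p) :=
    Finset.disjoint_left.2 fun r hr hr' => hno r hr r hr' _ List.prefix_rfl List.prefix_rfl
  have hPF : PF (C.disjUnion _ hd) := by
    refine ⟨fun r hr => ?_, fun r hr r' hr' e => ?_⟩
    · rcases Finset.mem_disjUnion.1 hr with hr | hr
      · have := isReduced_append_singleton_append (hA.1 p hp) (red_two (tp.2 ▸ (hC r hr).2))
        rw [wd, (hC r hr).1, wd, List.append_assoc]
        exact this
      · exact hA.1 r (Finset.mem_of_mem_erase hr)
    · rcases Finset.mem_disjUnion.1 hr with hr | hr <;> rcases Finset.mem_disjUnion.1 hr' with hr' | hr'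
      · have e1 := (hC r hr).1.trans (hC r' hr').1.symm
        have e2 := e.eq_of_length (by simp only [wd, e1, List.length_append, List.length_singleton])
        rw [wd, wd, e1] at e2
        exact Prod.ext e1 (by simpa using e2)
      · exact (hno r hr r' hr' _ e List.prefix_rfl).elim
      · exact (hno r' hr' r hr _ List.prefix_rfl e).elim
      · exact hA.2 r (Finset.mem_of_mem_erase hr) r' (Finset.mem_of_mem_erase hr') e
  obtain ⟨P, hP, hI⟩ := h _ hPF (by
    rw [Finset.disjUnion_val, Multiset.map_add, h1, Finset.map_val, Multiset.map_map]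
    refine congrArg (· + a) (Multiset.map_congr rfl fun y _ => ?_)
    simp [ty, wd, tp.1])
  refine ⟨P, fun i hi => ⟨(hP i hi).1, (hP i hi).2.1, fun b => ⟨((hP i hi).2.2 b).1, ?_⟩⟩, hI⟩
  obtain ⟨r, hr, e⟩ := ((hP i hi).2.2 b).2
  rcases Finset.mem_disjUnion.1 hr with hr | hr
  · exact ⟨p, hp, (hC2 r hr).trans e⟩
  · exact ⟨r, Finset.mem_of_mem_erase hr, e⟩

omit [DecidableEq ι] in
theorem Ok.splitMany {s : Finset ι} {k : ℕ} (S : Multiset (α × Bool)) :
    ∀ (a : Multiset (ℕ × (α × Bool))) (R : Multiset (α × Bool)),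
      R + S.map linv = S.card • Finset.univ.val → Ok ℓ (R.map (fun y => (k + 1, y)) + a) s →
      Ok ℓ (S.map (fun y => (k, y)) + a) s := by
  induction S using Multiset.induction_on with
  | empty =>
    intro a R hR h
    rw [Multiset.map_zero, add_zero, Multiset.card_zero, zero_smul] at hR
    simpa [hR] using h
  | cons x S ih =>
    intro a R hR h
    have e : (Finset.univ : Finset (α × Bool)).val = linv x ::ₘ (Finset.univ.erase (linv x)).val :=
      (Multiset.cons_erase (Finset.mem_univ _)).symm
    have hle : S.map linv ≤ S.card • Finset.univ.val := Multiset.le_iff_count.2 fun y => by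
      rw [Multiset.count_nsmul, Multiset.count_univ, mul_one]
      exact (Multiset.count_le_card _ _).trans_eq (Multiset.card_map _ _)
    obtain ⟨R', hR'⟩ := Multiset.le_iff_exists_add.1 hle
    have e2 : R = (Finset.univ.erase (linv x)).val + R' := by
      rw [Multiset.map_cons, Multiset.card_cons, succ_nsmul, hR', e, Multiset.add_cons,
        Multiset.add_cons, Multiset.cons_inj_right] at hR
      refine add_right_cancel (b := S.map linv) (hR.trans ?_)
      abel
    rw [Multiset.map_cons, Multiset.cons_add]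
    refine Ok.split ?_
    rw [add_left_comm]
    refine ih _ R' (by rw [hR', add_comm]) ?_
    rw [e2, Multiset.map_add] at h
    rwa [add_left_comm, ← add_assoc]

theorem game [Nonempty α] {q : ℕ} (hq : q + 1 = 2 * Fintype.card α) (D : ℕ) :
    ∀ (k : ℕ) (s : Finset ι) (S : Multiset (α × Bool)), (∀ i ∈ s, 2 * k + 1 ≤ ℓ i ∧ ℓ i ≤ 2 * (k + D)) →
      (∀ y, S.count (linv y) = S.count y) → (∀ y y', S.count y ≤ S.count y' + 1) →
      ∑ i ∈ s, wt q (ℓ i) ≤ S.card * mu q k → Ok ℓ (S.map fun y => (k, y)) s := by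
  have hpos : 0 < Fintype.card α := Fintype.card_pos
  have hq1 : 1 ≤ q := by omega
  have hcard : ∀ S : Multiset (α × Bool), ∑ y, S.count y = S.card := fun S =>
    Multiset.sum_count_eq_card fun _ _ => Finset.mem_univ _
  have hlne : ∀ y : α × Bool, linv y ≠ y := fun y e => by simpa [linv] using congrArg Prod.snd e
  induction D with
  | zero =>
    intro k s S hs _ _ _ A _ _
    exact ⟨fun _ _ => ([], Classical.arbitrary _), fun i hi => by have := hs i hi; omega,
      fun i hi => by have := hs i hi; omega⟩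
  | succ D ih =>
    intro k s
    induction s using Finset.strongInduction with
    | H s ih2 =>
      intro S hs h1 h2 hm
      by_cases ho : ∃ i ∈ s, ℓ i = k + k + 1
      · obtain ⟨i, hi, hl⟩ := ho
        obtain ⟨y, -, hy⟩ := Finset.exists_max_image Finset.univ (fun y => S.count y) Finset.univ_nonempty
        rw [← Finset.add_sum_erase _ _ hi, hl, wt_add q k.le_succ k.le_succ] at hm
        have p0 := Finset.sum_nonneg fun j (_ : j ∈ s.erase i) => (wt_pos hq1 (ℓ j)).le
        have p1 := mu_pos hq1 k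
        have y1 : 0 < S.count y := by
          by_contra hc
          have : S.card = 0 := by
            rw [← hcard]
            exact Finset.sum_eq_zero fun y' _ => by have := hy y' (Finset.mem_univ _); omega
          rw [this, Nat.cast_zero, zero_mul] at hm
          linarith
        obtain ⟨S1, rfl⟩ := Multiset.exists_cons_of_mem (Multiset.count_pos.1 y1)
        have y2 : linv y ∈ S1 := by
          rw [← h1, Multiset.count_cons_of_ne (hlne y)] at y1
          exact Multiset.count_pos.1 y1
        obtain ⟨S2, rfl⟩ := Multiset.exists_cons_of_mem y2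
        have c : ∀ x, (y ::ₘ linv y ::ₘ S2).count x =
            S2.count x + if x = y ∨ x = linv y then 1 else 0 := fun x => by
          rw [Multiset.count_cons, Multiset.count_cons]
          by_cases e : x = y
          · rw [if_pos e, if_pos (Or.inl e), if_neg (e ▸ (hlne x).symm)]
          · by_cases e' : x = linv y
            · rw [if_pos e', if_pos (Or.inr e'), if_neg e]
            · rw [if_neg e', if_neg e, if_neg (not_or.2 ⟨e, e'⟩)]
        have c2 : ∀ x, (linv x = y ∨ linv x = linv y) ↔ (x = y ∨ x = linv y) := fun x =>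
          ⟨fun h => h.elim (fun e => Or.inr (by rw [← e, linv_linv]))
            fun e => Or.inl (by rw [← linv_linv x, e, linv_linv]),
          fun h => h.elim (fun e => Or.inr (by rw [e])) fun e => Or.inl (by rw [e, linv_linv])⟩
        rw [← Finset.insert_erase hi, Multiset.map_cons, Multiset.map_cons]
        refine (ih2 _ (Finset.erase_ssubset hi) S2 (fun j hj => hs j (Finset.mem_of_mem_erase hj))
          (fun x => ?_) (fun x x' => ?_) ?_).use hl y
        · have := h1 x
          simp only [c, c2] at this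
          omega
        · have a1 := h2 x x'
          have a2 := hy x (Finset.mem_univ _)
          have a3 := h1 y
          simp only [c] at a1 a2 a3
          by_cases e : x' = y ∨ x' = linv y
          · rcases e with rfl | rfl <;> simp only [true_or, or_true, if_true] at a1 a2 a3 <;> omega
          · rw [if_neg e] at a1
            omega
        · simp only [Multiset.card_cons, Nat.cast_add, Nat.cast_one] at hm
          linarith
      · rw [← Finset.sum_filter_add_sum_filter_not s fun i => ℓ i = k + (k + 1) + 1,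
          Finset.sum_congr rfl (g := fun _ => mu q k + mu q (k + 1)) fun i hi => by
            rw [(Finset.mem_filter.1 hi).2, wt_add q (by omega) le_rfl],
          Finset.sum_const, nsmul_eq_mul, ← mu_succ hq1 k] at hm
        have p0 := Finset.sum_nonneg
          fun j (_ : j ∈ s.filter fun i => ¬ ℓ i = k + (k + 1) + 1) => (wt_pos hq1 (ℓ j)).le
        have p1 := mu_pos hq1 (k + 1)
        obtain ⟨E, hE⟩ : ∃ E, E = (s.filter fun i => ℓ i = k + (k + 1) + 1).card := ⟨_, rfl⟩
        rw [← hE] at hm
        have e1 : E * (q + 1) ≤ S.card * q := by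
          have : (E : ℝ) * (q + 1) ≤ S.card * q := le_of_mul_le_mul_right (by linarith) p1
          exact_mod_cast this
        obtain ⟨T, hT⟩ : ∃ T, S.card = E + T := Nat.exists_eq_add_of_le (by nlinarith)
        have e2 : S.card ≤ (q + 1) * T := by rw [hT] at e1 ⊢; nlinarith
        have cL : Fintype.card (α × Bool) = q + 1 := by simp; omega
        have e3 : S ≤ T • Finset.univ.val := Multiset.le_iff_count.2 fun y => by
          rw [Multiset.count_nsmul, Multiset.count_univ, mul_one]
          by_contra hc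
          have := Finset.sum_lt_sum (s := Finset.univ) (f := fun _ => T) (g := fun x => S.count x)
            (fun x _ => by have := h2 y x; omega) ⟨y, Finset.mem_univ _, by omega⟩
          rw [hcard, Finset.sum_const, Finset.card_univ, cL, smul_eq_mul] at this
          omega
        obtain ⟨S', hS'⟩ := Multiset.le_iff_exists_add.1 e3
        have c : ∀ y, S.count y + S'.count y = T := fun y => by
          rw [← Multiset.count_add, ← hS', Multiset.count_nsmul, Multiset.count_univ, mul_one]
        have e4 : S.card + S'.card = T * (q + 1) := by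
          rw [← Multiset.card_add, ← hS', Multiset.card_nsmul, ← cL]
          rfl
        have e5 : S.map linv = S := Multiset.ext.2 fun y => by
          rw [← h1 y, ← Multiset.count_map_eq_count' _ S
            (Function.LeftInverse.injective linv_linv) (linv y), linv_linv]
        obtain ⟨S1, hS1, hE1⟩ : ∃ S1 ≤ S, S1.card = E := by
          induction S using Quotient.inductionOn with
          | h l => exact ⟨l.take E, (List.take_sublist E l).subperm, by
              simp only [Multiset.quot_mk_to_coe, Multiset.coe_card] at hT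
              simp only [Multiset.coe_card, List.length_take]
              omega⟩
        obtain ⟨S2, rfl⟩ := Multiset.le_iff_exists_add.1 hS1
        have k1 := ih (k + 1) (s.filter fun i => ¬ ℓ i = k + (k + 1) + 1) S' (fun i hi => by
            rw [Finset.mem_filter] at hi
            have := hs i hi.1
            have : ℓ i ≠ k + k + 1 := fun e => ho ⟨i, hi.1, e⟩
            have := hi.2
            omega)
          (fun y => by have := c y; have := c (linv y); have := h1 y; omega)
          (fun y y' => by have := c y; have := c y'; have := h2 y' y; omega) (by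
            have a1 : ((S1 + S2).card : ℝ) + S'.card = T * (q + 1) := by exact_mod_cast e4
            have a2 : ((S1 + S2).card : ℝ) = E + T := by exact_mod_cast hT
            rw [show (S'.card : ℝ) = (S1 + S2).card * q - E * (q + 1) by
              linear_combination a1 - (q + 1) * a2]
            linarith)
        have k2 := k1.useMany (k := k) (k' := k + 1) S1 _ (hE.symm.trans hE1.symm)
          fun i hi => (Finset.mem_filter.1 hi).2
        rw [Finset.filter_union_filter_not_eq] at k2
        rw [Multiset.map_add, add_comm]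
        refine Ok.splitMany S2 _ (S' + S1.map linv) ?_ ?_
        · rw [add_assoc, ← Multiset.map_add, e5, add_comm, ← hS']
          rw [Multiset.card_add] at hT
          rw [show S2.card = T by omega]
        · rw [Multiset.map_add, Multiset.map_map, add_comm, add_comm (S'.map _), ← add_assoc]
          exact k2

theorem sufficiency [Nonempty α] {q : ℕ} (hq : q + 1 = 2 * Fintype.card α) (s : Finset ι)
    (h1 : ∀ i ∈ s, 1 ≤ ℓ i) (h : ∑ i ∈ s, wt q (ℓ i) ≤ 1) :
    ∃ g : s → FreeGroup α, (∀ i, norm (g i) = ℓ i) ∧ Function.Injective (FreeGroup.lift g) := by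
  obtain ⟨P, hP, hI⟩ := game (ℓ := ℓ) hq (s.sup ℓ) 0 s Finset.univ.val
    (fun i hi => ⟨h1 i hi, by have := Finset.le_sup (f := ℓ) hi; omega⟩) (by simp) (by simp)
    (h.trans_eq (by
      have e : (Finset.univ : Finset (α × Bool)).val.card = q + 1 := by simp; omega
      rw [e, mu, pow_zero, mul_one, Nat.cast_succ, mul_one_div_cancel (by positivity)]))
    (Finset.univ.map ⟨fun y => ([], y), fun _ _ e => (Prod.ext_iff.1 e).2⟩)
    ⟨fun p hp => by
      obtain ⟨y, -, rfl⟩ := Finset.mem_map.1 hp
      exact IsReduced.singleton, fun p hp p' hp' e => by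
      obtain ⟨y, -, rfl⟩ := Finset.mem_map.1 hp
      obtain ⟨y', -, rfl⟩ := Finset.mem_map.1 hp'
      simpa [wd] using e⟩ (by rw [Finset.map_val, Multiset.map_map]; rfl)
  refine ⟨_, fun i => ?_, free_of_incomparable (fun i : s => (P i true).1) (fun i => (P i false).1)
    (fun i => (P i true).2) (fun t => wd (P t.1 t.2)) (fun _ => rfl)
    (fun i => by rw [wd, (hP i i.2).1]) (fun t => ((hP _ t.1.2).2.2 _).1) fun t t' e =>
      Prod.ext (Subtype.ext (hI _ t.1.2 _ t'.1.2 _ _ e).1) (hI _ t.1.2 _ t'.1.2 _ _ e).2⟩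
  obtain ⟨a, b, c⟩ := hP i i.2
  have r1 : IsReduced ((P i true).2 :: invRev (P i false).1) := by
    have e : (P i true).2 :: invRev (P i false).1 = invRev (wd (P i false)) := by
      rw [wd, invRev_append, a]
      simp [invRev, linv]
    rw [e, isReduced_iff_reduce_eq, reduce_invRev, (c false).1.reduce_eq]
  have r2 := isReduced_append_singleton_append (c true).1 r1
  rw [inv_mk, mul_mk, FreeGroup.norm, toWord_mk, List.append_assoc, List.singleton_append, r2.reduce_eq,
    List.length_append, List.length_cons, invRev_length, ← b, add_assoc]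

end Pool.Agent.Work.MP_15e198_al
end

-- merged part: Pool.Agent.Work.MP_15e198_al.Hedge.Main
section
/-! The length profiles of free families. -/

namespace Pool.Agent.Work.MP_15e198_al

open FreeGroup
open scoped ENNReal

variable {r : ℕ}

theorem maxFree_zero (hr : 1 ≤ r) : maxFree r 0 = 0 := by
  have : Nonempty (Fin r) := ⟨⟨0, hr⟩⟩
  refine Nat.le_zero.1 (csSup_le' ?_)
  rintro k ⟨X, rfl, h1, h2⟩
  exact upper_zero X h1 h2

theorem maxFree_odd (hr : 1 ≤ r) (m : ℕ) : maxFree r (2 * m + 1) = r * (2 * r - 1) ^ m := by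
  have : Nonempty (Fin r) := ⟨⟨0, hr⟩⟩
  refine IsGreatest.csSup_eq ⟨by simpa using lower_odd (α := Fin r) m, ?_⟩
  rintro k ⟨X, rfl, h1, h2⟩
  simpa using upper_odd m X h1 h2

theorem maxFree_even (hr : 1 ≤ r) (m : ℕ) : maxFree r (2 * (m + 1)) = (2 * r - 1) ^ (m + 1) := by
  have : Nonempty (Fin r) := ⟨⟨0, hr⟩⟩
  refine IsGreatest.csSup_eq ⟨by simpa using lower_even (α := Fin r) m, ?_⟩
  rintro k ⟨X, rfl, h1, h2⟩
  simpa using upper_even m X h1 h2

theorem inv_maxFree (hr : 1 ≤ r) {n : ℕ} (hn : 1 ≤ n) :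
    ((maxFree r n : ℝ≥0∞))⁻¹ = ENNReal.ofReal (wt (2 * r - 1) n) := by
  have h0 : (0 : ℝ) < r := by exact_mod_cast hr
  have h1 : (0 : ℝ) < (2 * r - 1 : ℕ) := by exact_mod_cast (by omega : 0 < 2 * r - 1)
  have h2 : ((2 * r - 1 : ℕ) : ℝ) + 1 = 2 * r := by exact_mod_cast (by omega : 2 * r - 1 + 1 = 2 * r)
  have key : wt (2 * r - 1) n = (maxFree r n : ℝ)⁻¹ ∧ (0 : ℝ) < maxFree r n := by
    rcases Nat.even_or_odd' n with ⟨m, rfl | rfl⟩
    · obtain ⟨m, rfl⟩ : ∃ k, m = k + 1 := ⟨m - 1, by omega⟩
      rw [maxFree_even hr, show 2 * (m + 1) = m + (m + 1) + 1 by ring, wt_add _ (by omega) le_rfl,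
        ← mu_succ (by omega) m, ← add_one_mul, mu, Nat.cast_pow]
      exact ⟨by field_simp, by positivity⟩
    · rw [maxFree_odd hr, two_mul m, wt_add _ m.le_succ m.le_succ, mu, h2, Nat.cast_mul, Nat.cast_pow]
      exact ⟨by field_simp; norm_num, by positivity⟩
  rw [key.1, ENNReal.ofReal_inv_of_pos key.2, ENNReal.ofReal_natCast]

theorem sum_le_iff (hr : 1 ≤ r) {ι : Type} {ℓ : ι → ℕ} (h : ∀ i, 1 ≤ ℓ i) :
    ∑' i, ((maxFree r (ℓ i) : ℝ≥0∞))⁻¹ ≤ 1 ↔ ∀ s : Finset ι, ∑ i ∈ s, wt (2 * r - 1) (ℓ i) ≤ 1 := by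
  rw [ENNReal.tsum_eq_iSup_sum, iSup_le_iff]
  refine forall_congr' fun s => ?_
  simp only [inv_maxFree hr (h _)]
  rw [← ENNReal.ofReal_sum_of_nonneg fun i _ => (wt_pos (by omega) _).le, ENNReal.ofReal_le_one]

theorem sphere_finite (n : ℕ) : Finite {g : FreeGroup (Fin r) // norm g = n} :=
  ((List.finite_length_eq (Fin r × Bool) n).preimage toWord_injective.injOn).to_subtype

theorem kraft (hr : 1 ≤ r) {ι : Type} (ℓ : ι → ℕ) :
    (∃ g : ι → FreeGroup (Fin r), (∀ i, norm (g i) = ℓ i) ∧ Function.Injective (FreeGroup.lift g)) ↔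
      ∑' i, ((maxFree r (ℓ i) : ℝ≥0∞))⁻¹ ≤ 1 := by
  classical
  have : Nonempty (Fin r) := ⟨⟨0, hr⟩⟩
  have hq : 2 * r - 1 + 1 = 2 * Fintype.card (Fin r) := by rw [Fintype.card_fin]; omega
  constructor
  · rintro ⟨g, h1, h2⟩
    rw [sum_le_iff hr fun i => ?_]
    · intro s
      simpa only [h1] using necessity h2 hq s
    · rw [← h1, Nat.one_le_iff_ne_zero, ne_eq, FreeGroup.norm_eq_zero]
      exact fun e => of_ne_one i (h2 (by rw [lift_apply_of, e, _root_.map_one]))
  · intro h
    have h1 : ∀ i, 1 ≤ ℓ i := fun i => by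
      by_contra hc
      have := (ENNReal.le_tsum i).trans h
      rw [show ℓ i = 0 by omega, maxFree_zero hr] at this
      simp at this
    rw [sum_le_iff hr h1] at h
    choose g hg1 hg2 using fun s : Finset ι => sufficiency hq s (fun i _ => h1 i) (h s)
    have := fun i => sphere_finite (r := r) (ℓ i)
    obtain ⟨χ, hχ⟩ := Finset.rado_selection_subtype (β := fun i => {g : FreeGroup (Fin r) // norm g = ℓ i})
      fun s i => ⟨g s i, hg1 s i⟩
    refine ⟨fun i => χ i, fun i => (χ i).2, (injective_iff_map_eq_one _).2 fun w hw => ?_⟩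
    obtain ⟨t, hst, ht⟩ := hχ (w.toWord.map Prod.fst).toFinset
    have key : ∀ l : List (ι × Bool), (∀ y ∈ l, y.1 ∈ (w.toWord.map Prod.fst).toFinset) →
        ∃ v : FreeGroup t, FreeGroup.map Subtype.val v = mk l ∧
          FreeGroup.lift (g t) v = FreeGroup.lift (fun i => (χ i).1) (mk l) := fun l => by
      induction l with
      | nil => exact fun _ => ⟨1, _root_.map_one _, (_root_.map_one _).trans (_root_.map_one _).symm⟩
      | cons y l ih =>
        intro hl
        obtain ⟨v, v1, v2⟩ := ih fun z hz => hl z (List.mem_cons_of_mem _ hz)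
        have hy := hl y List.mem_cons_self
        have e := congrArg Subtype.val (ht ⟨y.1, hy⟩)
        refine ⟨mk [(⟨y.1, hst hy⟩, y.2)] * v, ?_, ?_⟩
        · rw [_root_.map_mul, v1, map.mk, mul_mk]
          rfl
        · rw [_root_.map_mul, v2]
          simp only [lift_mk, List.map_cons, List.map_nil, List.prod_cons, List.prod_nil, mul_one, e]
    obtain ⟨v, v1, v2⟩ := key w.toWord fun y hy => List.mem_toFinset.2 (List.mem_map_of_mem hy)
    rw [mk_toWord] at v1 v2
    rw [← v1, (injective_iff_map_eq_one _).1 (hg2 t) v (v2.trans hw), _root_.map_one]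

end Pool.Agent.Work.MP_15e198_al
end
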